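import Pool.Agent.helper88.RQ2.Spec

/-!
# Row AR4 of project RQ (MP_bb0bb6_co): the minimum decreases with the dimension
-/

set_option autoImplicit false

open Set Matroid RadonMin

namespace RadonQ2

theorem AR4_bal (k s : ℕ) (hk : 1 ≤ k) (hs : 2 * k + 2 ≤ s) : bal k (s - 1) < bal k s := by
  have hdm := Nat.div_add_mod (s - 1) k
  have hmod := Nat.mod_lt (s - 1) (show k > 0 by omega)
  obtain ⟨q, hqd⟩ : ∃ q, (s - 1) / k = q := ⟨_, rfl⟩
  obtain ⟨t, htd⟩ : ∃ t, (s - 1) % k = t := ⟨_, rfl⟩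
  rw [hqd, htd] at hdm
  rw [htd] at hmod
  have hq2 : 2 ≤ q := by
    rw [← hqd]
    exact (Nat.le_div_iff_mul_le (by omega)).2 (by omega)
  have h1 : s - 1 = q * k + t := by rw [← hdm, Nat.mul_comm]
  have h2 : s = q * k + (t + 1) := by omega
  rw [h1, bal_eq k q t hk hmod.le, h2, bal_eq k q (t + 1) hk (by omega)]
  have hc : 1 ≤ q.choose 2 := Nat.choose_pos hq2
  have h3 : (t + 1) * q.choose 2 = t * q.choose 2 + q.choose 2 := by ring
  omega

theorem AR4_proof (hAR5 : AR5_stmt) : AR4_stmt := by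
  intro d s hd hs
  classical
  rcases Nat.even_or_odd' d with ⟨k, hk | hk⟩
  · -- even
    subst hk
    have hk1 : 1 ≤ k := by omega
    have h5 := (hAR5 (k + 1) s (by omega) (by omega)).1
    have e1 : 2 * (k + 1) - 1 = 2 * k + 1 := by omega
    rw [e1] at h5
    obtain ⟨S, hS, hcc⟩ := (exists_min (2 * k) s (by omega) (by omega)).hasSet
    have hr := rk_affMat_le S
    rw [finrank_euclideanSpace_fin] at hr
    have hT := T_bound (affMat_simp S) (affMat_good S) (s / (k + 1))
    have hn : (affMat S).E.ncard = s := by rw [affMat_E, ncard_coe_finset, hS]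
    rw [hn] at hT
    have hq2 : 2 ≤ s / (k + 1) := (Nat.le_div_iff_mul_le (by omega)).2 (by omega)
    have hc : 1 ≤ ((s / (k + 1)) + 1).choose 3 := Nat.choose_pos (by omega)
    have hcZ : (1 : ℤ) ≤ (((s / (k + 1)) + 1).choose 3 : ℤ) := by exact_mod_cast hc
    have hrZ : ((rk (affMat S) (affMat S).E : ℕ) : ℤ) ≤ 2 * (k : ℤ) + 1 := by exact_mod_cast hr
    have h6 : (((s / (k + 1)) + 1).choose 3 : ℤ) * ((rk (affMat S) (affMat S).E : ℕ) : ℤ) ≤
        (((s / (k + 1)) + 1).choose 3 : ℤ) * (2 * (k : ℤ) + 1) :=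
      mul_le_mul_of_nonneg_left hrZ (by linarith)
    have h7 : ((cc (affMat S) : ℕ) : ℤ) ≤ ((radonMin (2 * k) s : ℕ) : ℤ) := by exact_mod_cast hcc
    have h8 : ((radonMin (2 * k + 1) s : ℕ) : ℤ) < ((radonMin (2 * k) s : ℕ) : ℤ) := by
      rw [h5]
      unfold TT
      push_cast
      push_cast at hT
      nlinarith
    exact_mod_cast h8
  · -- odd
    subst hk
    have h1 : radonMin (2 * k + 1 + 1) s ≤ bal (k + 1) (s - 1) := by
      unfold radonMin
      rw [if_neg (by omega)]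
      have e : (2 * k + 1 + 1) / 2 = k + 1 := by omega
      rw [e]
      exact Nat.sub_le _ _
    have h2 : radonMin (2 * k + 1) s = bal (k + 1) s := by
      unfold radonMin
      rw [if_pos (by omega)]
      have e : (2 * k + 1 + 1) / 2 = k + 1 := by omega
      rw [e]
    rw [h2]
    exact lt_of_le_of_lt h1 (AR4_bal (k + 1) s (by omega) (by omega))

end RadonQ2
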